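import Pool.Agent.H79.BC9

set_option autoImplicit false

namespace Pool.Agent.Results.MP_8741c9_al.NoDescent

open IsLocalRing Pool.Agent.H79.BCDefs

theorem result : ∃ (R : Type) (_ : CommRing R) (_ : IsLocalRing R) (_ : IsNoetherianRing R),
    IsMCM R R ∧
    IsNoetherianRing (AdicCompletion (maximalIdeal R) R) ∧
    Module.Flat R (AdicCompletion (maximalIdeal R) R) ∧
    IsLocalHom (algebraMap R (AdicCompletion (maximalIdeal R) R)) ∧
    IsField (AdicCompletion (maximalIdeal R) R ⧸
      (maximalIdeal R).map (algebraMap R (AdicCompletion (maximalIdeal R) R))) ∧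
    BoundedCM (AdicCompletion (maximalIdeal R) R) ∧ ¬BoundedCM R := by
  obtain ⟨h1, h2, h3, h4⟩ := Pool.Agent.H79.BC9.main (k := ℚ)
  refine ⟨Pool.Agent.H79.BC8.R ℚ, inferInstance, inferInstance, inferInstance, h1, h2,
    inferInstance, inferInstance, ?_, h3, h4⟩
  rw [← AdicCompletion.maximalIdeal_eq_map]
  exact (Ideal.Quotient.maximal_ideal_iff_isField_quotient _).mp inferInstance

end Pool.Agent.Results.MP_8741c9_al.NoDescent
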